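import Pool.Agent.Work.MP_af588c_co.TB7

namespace Pool.Agent.Work.MP_af588c_co.Old.BookAnyHost

open Pool.Agent.Work.MP_af588c_co.TB

/-- The 3-graph `book t` has density at least `p ^ (C (t^2 + t log (1/p)))` in every 3-graph
with `p n^3` edges. -/
theorem result :
    ∃ C : ℝ, 0 < C ∧ ∀ (n t : ℕ) (p : ℝ), 1 ≤ t → 0 < p →
      ∀ E : Finset (Finset (Fin n)), (∀ e ∈ E, e.card = 3) →
        (E.card : ℝ) = p * (n : ℝ) ^ 3 → E.Nonempty →
          p ^ (C * ((t : ℝ) ^ 2 + t * Real.log (1 / p))) * (n : ℝ) ^ (3 * t + 3)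
            ≤ copies (book t) E := by
  obtain ⟨C, hC, h⟩ := joined
  exact ⟨C, hC, fun n t p ht hp E hE he hne => ((h n t p ht hp).2 E hE he hne).1⟩

end Pool.Agent.Work.MP_af588c_co.Old.BookAnyHost
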