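import Pool.Agent.Work.MP_af588c_co.LB.Fin

namespace Pool.Agent.Work.MP_af588c_co.Old.LinearBlowup

open Pool.Agent.Work.MP_af588c_co.TB Pool.Agent.Work.MP_af588c_co.LB

/-- Let `T` be a set of triples in which two triples with the same third entry and the same first
or second entry are equal. Every subhypergraph `H` of the `u`-fold blow-up of `T` has density at
least `p ^ (|T| u ^ 3)` in every host with `p n ^ 3` edges, as soon as `u ≥ (s / p) ^ 24`. -/
theorem result (n : ℕ) (p : ℝ) (hp : 0 < p) (E : Finset (Finset (Fin n)))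
    (hE : ∀ e ∈ E, e.card = 3) (hc : (E.card : ℝ) = p * (n : ℝ) ^ 3) (hne : E.Nonempty)
    (s u : ℕ) (T : Finset (Fin s × Fin s × Fin s))
    (hT : ∀ a ∈ T, ∀ b ∈ T, a.2.2 = b.2.2 → (a.1 = b.1 ∨ a.2.1 = b.2.1) → a = b)
    (hu : ((s : ℝ) / p) ^ 24 ≤ u)
    (W : Type) [Fintype W] [DecidableEq W] (H : Set (Finset W)) (col : W → Fin 3)
    (lab : W → Fin s)
    (hf : ∀ c i, (Finset.univ.filter fun w => col w = c ∧ lab w = i).card ≤ u)
    (hH : ∀ e ∈ H, ∃ x y z, e = {x, y, z} ∧ col x = 0 ∧ col y = 1 ∧ col z = 2 ∧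
      (lab x, lab y, lab z) ∈ T) :
    p ^ (T.card * u ^ 3) * (n : ℝ) ^ Fintype.card W ≤ copies H E := by
  obtain ⟨e, he⟩ := hne
  obtain ⟨x, -⟩ := Finset.card_pos.1 (show 0 < e.card by rw [hE e he]; norm_num)
  have : NeZero n := ⟨x.pos.ne'⟩
  have hn : (0 : ℝ) < n := by exact_mod_cast x.pos
  exact blowup E hE hp (by rw [hc]; field_simp) s u T hT hu W H col lab hf hH

end Pool.Agent.Work.MP_af588c_co.Old.LinearBlowup
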