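import Pool.Agent.Work.MP_af588c_co.TB7

namespace Pool.Agent.Work.MP_af588c_co.Old.TriangleBlowup

open Pool.Agent.Work.MP_af588c_co.TB

/-- Every 3-partite `H` with parts of size at most `t` has density at least
`p ^ (C (t^2 + t log (1/p)))` in the triangle 3-graph of any graph with `p n^3` triangles. -/
theorem result :
    ∃ C : ℝ, 0 < C ∧ ∀ (n t : ℕ) (p : ℝ), 1 ≤ t → 0 < p →
      ∀ (Γ : SimpleGraph (Fin n)) [DecidableRel Γ.Adj],
        ((Γ.cliqueFinset 3).card : ℝ) = p * (n : ℝ) ^ 3 → (Γ.cliqueFinset 3).Nonempty →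
        ∀ (W : Type) [Fintype W] [DecidableEq W] (H : Set (Finset W)) (col : W → Fin 3),
          (∀ e ∈ H, e.card = 3 ∧ e.image col = Finset.univ) →
          (∀ i, (Finset.univ.filter fun w => col w = i).card ≤ t) →
          p ^ (C * ((t : ℝ) ^ 2 + t * Real.log (1 / p))) * (n : ℝ) ^ Fintype.card W
            ≤ copies H (Γ.cliqueFinset 3) := by
  obtain ⟨C, hC, h⟩ := joined
  exact ⟨C, hC, fun n t p ht hp => (h n t p ht hp).1⟩

end Pool.Agent.Work.MP_af588c_co.Old.TriangleBlowup
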